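import Pool.Agent.K3h83.IN.Stm5
import Pool.Agent.K3h92.IN.SevenSix
import Pool.Agent.Y63.AWC.Deg
import Pool.Agent.H254R3.IN.Red

/-!
# Reduction of the characters of defect zero
-/

set_option autoImplicit false
set_option linter.style.haveILetI false

open scoped BigOperators Classical

noncomputable section

namespace Pool.Agent.K3h85.IN

open Pool.Agent.K3h83.IN Pool.Agent.K3h3.KB
open Pool.Agent.H254R3.IN (IsIrr RF red irr_nontrivial)

/-- an irreducible representation has matrices with entries in a valuation ring -/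
theorem lat (O : ValuationSubring ℂ) {G V : Type} [Group G] [Finite G] [AddCommGroup V] [Module ℂ V]
    [FiniteDimensional ℂ V] (ρ : Representation ℂ G V) (hr : ρ.IsIrreducible) :
    ∃ (n : ℕ) (B : Module.Basis (Fin n) ℂ V) (S : G →* Matrix (Fin n) (Fin n) O),
      ∀ g, LinearMap.toMatrix B B (ρ g) = (S g).map (algebraMap O ℂ) := by
  haveI := irr_nontrivial ρ hr
  obtain ⟨v, hv⟩ := exists_ne (0 : V)
  set M : Submodule O V := Submodule.span O (Set.range fun g : G => ρ g v) with hM
  have hvM : v ∈ M := Submodule.subset_span ⟨1, by simp⟩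
  have hstab : ∀ (g : G) (x : V), x ∈ M → ρ g x ∈ M := by
    intro g x hx
    induction hx using Submodule.span_induction with
    | mem x hx =>
      obtain ⟨e, rfl⟩ := hx
      apply Submodule.subset_span
      exact ⟨g * e, by simp [map_mul]⟩
    | zero => rw [map_zero]; exact M.zero_mem
    | add x y _ _ hx hy => rw [map_add]; exact M.add_mem hx hy
    | smul c x _ hx =>
      have h1 : ρ g (c • x) = c • (ρ g x) := by
        have : (c • x : V) = (c : ℂ) • x := rfl
        rw [this, map_smul]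
        rfl
      rw [h1]
      exact M.smul_mem c hx
  haveI hfin : Module.Finite O M := by
    rw [hM]
    exact Module.Finite.span_of_finite O (Set.finite_range _)
  let σ : G →* Module.End O M :=
    { toFun := fun g => 
        { toFun := fun x => ⟨ρ g x, hstab g x x.2⟩
          map_add' := fun x y => Subtype.ext (by simp)
          map_smul' := fun c x => Subtype.ext (by
            have h1 : (((c • x : M) : V)) = (c : ℂ) • (x : V) := rfl
            simp only [h1, map_smul]
            rfl) }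
      map_one' := by
        ext x
        simp
      map_mul' := fun a b => by
        ext x
        simp }
  haveI : Module.Flat O M := by
    rw [Module.Flat.flat_iff_torsion_eq_bot_of_isBezout, ← Submodule.isTorsionFree_iff_torsion_eq_bot]
    refine ⟨fun r hr x y hxy => ?_⟩
    have h0 : (r : ℂ) ≠ 0 := by
      intro h
      exact hr.ne_zero (Subtype.ext h)
    have h1 : ((r : ℂ) • (x : V)) = (r : ℂ) • (y : V) := congrArg Subtype.val hxy
    exact Subtype.ext (smul_right_injective V h0 h1)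
  haveI : Module.Free O M := Module.free_of_flat_of_isLocalRing
  let b := Module.finBasis O M
  have hli : LinearIndependent ℂ (fun i => (b i : V)) := by
    rw [← LinearIndependent.iff_fractionRing O ℂ]
    exact b.linearIndependent.map' M.subtype (Submodule.ker_subtype M)
  have hsp : ⊤ ≤ Submodule.span ℂ (Set.range fun i => (b i : V)) := by
    let W : Subrepresentation ρ :=
      { toSubmodule := Submodule.span ℂ (M : Set V)
        apply_mem_toSubmodule := by
          intro g x hx
          induction hx using Submodule.span_induction with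
          | mem x hx => exact Submodule.subset_span (hstab g x hx)
          | zero => rw [map_zero]; exact Submodule.zero_mem _
          | add x y _ _ hx hy => rw [map_add]; exact Submodule.add_mem _ hx hy
          | smul c x _ hx => rw [map_smul]; exact Submodule.smul_mem _ c hx }
    have hW : W = ⊤ := by
      rcases hr.eq_bot_or_eq_top W with h | h
      · exfalso
        have h1 : v ∈ W.toSubmodule := Submodule.subset_span hvM
        rw [h] at h1
        exact hv h1
      · exact h
    have hW' : W.toSubmodule = ⊤ := by rw [hW]; rfl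
    rw [← hW']
    refine Submodule.span_le.mpr fun x hx => ?_
    have h2 := congrArg (Submodule.subtype M) (b.sum_repr ⟨x, hx⟩)
    rw [map_sum] at h2
    have h3 : x = ∑ i, ((b.repr ⟨x, hx⟩ i : O) : ℂ) • (b i : V) := h2.symm
    rw [h3]
    exact Submodule.sum_mem _ fun i _ =>
      Submodule.smul_mem _ _ (Submodule.subset_span ⟨i, rfl⟩)
  let B := Module.Basis.mk hli hsp
  have hB : ∀ i, B i = b i := fun i => by rw [Module.Basis.mk_apply]
  let S : G →* Matrix (Fin (Module.finrank O M)) (Fin (Module.finrank O M)) O :=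
    ((LinearMap.toMatrixAlgEquiv b : Module.End O M ≃ₐ[O] _) : Module.End O M →* _).comp σ
  refine ⟨Module.finrank O M, B, S, fun g => ?_⟩
  ext i j
  rw [LinearMap.toMatrix_apply, Matrix.map_apply]
  have h1 : ρ g (B j) = ∑ k, ((b.repr (σ g (b j)) k : O) : ℂ) • B k := by
    have h2 := congrArg (Submodule.subtype M) (b.sum_repr (σ g (b j)))
    rw [map_sum] at h2
    rw [hB]
    refine h2.symm.trans ?_
    refine Finset.sum_congr rfl fun k _ => ?_
    rw [hB]
    rfl
  have h4 : S g i j = b.repr (σ g (b j)) i := by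
    change LinearMap.toMatrixAlgEquiv b (σ g) i j = _
    rw [LinearMap.toMatrixAlgEquiv_apply]
  rw [h1, B.repr_sum_self, h4]
  rfl

section

variable {O : ValuationSubring ℂ} {G : Type} [Group G] [Fintype G]

/-- Schur's lemma in matrix form -/
theorem avg_mat {V : Type} [AddCommGroup V] [Module ℂ V] [FiniteDimensional ℂ V]
    (ρ : Representation ℂ G V) (hr : ρ.IsIrreducible) {n : ℕ} (B : Module.Basis (Fin n) ℂ V)
    (S : G →* Matrix (Fin n) (Fin n) O)
    (hS : ∀ g, LinearMap.toMatrix B B (ρ g) = (S g).map (algebraMap O ℂ))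
    (N : ℕ) (hN : (N : ℂ) * n = Fintype.card G) (θ : Matrix (Fin n) (Fin n) O) :
    ∑ g, S g * θ * S g⁻¹ = ((N : O) * θ.trace) • (1 : Matrix (Fin n) (Fin n) O) := by
  haveI := irr_nontrivial ρ hr
  have hn : Module.finrank ℂ V = n := by
    rw [Module.finrank_eq_card_basis B, Fintype.card_fin]
  have hn0 : (n : ℂ) ≠ 0 := by
    rw [← hn]
    exact_mod_cast Module.finrank_pos.ne'
  have hinj : Function.Injective (algebraMap O ℂ) := Subtype.val_injective
  apply Matrix.map_injective hinj
  have h1 := Pool.Agent.K3h92.IN.avg ρ hr (Matrix.toLin B B (θ.map (algebraMap O ℂ)))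
  have h2 := congrArg (LinearMap.toMatrix B B) h1
  rw [map_sum] at h2
  simp only [LinearMap.toMatrix_mul, hS, LinearMap.toMatrix_toLin, map_smul] at h2
  have h3 : (∑ g, S g * θ * S g⁻¹).map (algebraMap O ℂ) =
      ∑ g, (S g).map (algebraMap O ℂ) * θ.map (algebraMap O ℂ) * (S g⁻¹).map (algebraMap O ℂ) := by
    have := map_sum (algebraMap O ℂ).mapMatrix (fun g => S g * θ * S g⁻¹) Finset.univ
    simp only [map_mul, RingHom.mapMatrix_apply] at this
    exact this
  change (∑ g, S g * θ * S g⁻¹).map (algebraMap O ℂ) = _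
  rw [h3, h2, LinearMap.trace_eq_matrix_trace ℂ B, LinearMap.toMatrix_toLin, LinearMap.toMatrix_id,
    hn, ← hN]
  have h4 : (θ.map (algebraMap O ℂ)).trace = algebraMap O ℂ θ.trace := by
    simp [Matrix.trace, map_sum]
  have h5 : (N : ℂ) * n * algebraMap O ℂ θ.trace / n = algebraMap O ℂ ((N : O) * θ.trace) := by
    rw [map_mul, map_natCast]
    field_simp
  rw [h4, h5]
  change _ = (((N : O) * θ.trace) • (1 : Matrix (Fin n) (Fin n) O)).map (algebraMap O ℂ)
  ext i j
  rw [Matrix.smul_apply, Matrix.map_apply, Matrix.smul_apply, smul_eq_mul, smul_eq_mul, map_mul]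
  congr 1
  rw [Matrix.one_apply, Matrix.one_apply]
  split_ifs <;> simp

/-- orthogonality in matrix form -/
theorem orth_mat {V V' : Type} [AddCommGroup V] [Module ℂ V] [FiniteDimensional ℂ V]
    [AddCommGroup V'] [Module ℂ V'] [FiniteDimensional ℂ V']
    (ρ : Representation ℂ G V) (hr : ρ.IsIrreducible) (ρ' : Representation ℂ G V')
    (hr' : ρ'.IsIrreducible) (hne : ρ.character ≠ ρ'.character) {n n' : ℕ}
    (B : Module.Basis (Fin n) ℂ V) (B' : Module.Basis (Fin n') ℂ V')
    (S : G →* Matrix (Fin n) (Fin n) O) (S' : G →* Matrix (Fin n') (Fin n') O)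
    (hS : ∀ g, LinearMap.toMatrix B B (ρ g) = (S g).map (algebraMap O ℂ))
    (hS' : ∀ g, LinearMap.toMatrix B' B' (ρ' g) = (S' g).map (algebraMap O ℂ))
    (θ : Matrix (Fin n') (Fin n) O) : ∑ g, S' g * θ * S g⁻¹ = 0 := by
  have hinj : Function.Injective (algebraMap O ℂ) := Subtype.val_injective
  apply Matrix.map_injective hinj
  set t : V →ₗ[ℂ] V' := Matrix.toLin B B' (θ.map (algebraMap O ℂ)) with ht
  have hQ : ∑ g : G, ρ' g ∘ₗ t ∘ₗ ρ g⁻¹ = 0 := by
    haveI := hr
    haveI := hr'
    have hcomm : ∀ (h : G) (v : V), (∑ g : G, ρ' g ∘ₗ t ∘ₗ ρ g⁻¹) (ρ h v) =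
        ρ' h ((∑ g : G, ρ' g ∘ₗ t ∘ₗ ρ g⁻¹) v) := by
      intro h v
      simp only [LinearMap.sum_apply, map_sum, LinearMap.comp_apply]
      refine Fintype.sum_equiv (Equiv.mulLeft h⁻¹) _ _ fun g => ?_
      rw [Equiv.coe_mulLeft]
      have e1 : ρ (h⁻¹ * g)⁻¹ v = ρ g⁻¹ (ρ h v) := by
        rw [← Module.End.mul_apply, ← map_mul]
        congr 2
        group
      have e2 : ∀ w, ρ' h (ρ' (h⁻¹ * g) w) = ρ' g w := by
        intro w
        rw [← Module.End.mul_apply, ← map_mul, mul_inv_cancel_left]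
      rw [e1, e2]
    let T : Representation.IntertwiningMap ρ ρ' :=
      (∑ g : G, ρ' g ∘ₗ t ∘ₗ ρ g⁻¹).intertwiningMap_of_isIntertwiningMap ρ ρ' hcomm
    rcases Representation.IsIrreducible.bijective_or_eq_zero T with hb | h0
    · exfalso
      apply hne
      let e : V ≃ₗ[ℂ] V' := LinearEquiv.ofBijective (∑ g : G, ρ' g ∘ₗ t ∘ₗ ρ g⁻¹) hb
      funext h
      have h3 : ρ' h = e.conj (ρ h) := by
        refine LinearMap.ext fun w => ?_
        obtain ⟨v, rfl⟩ := e.surjective w
        rw [LinearEquiv.conj_apply_apply, LinearEquiv.symm_apply_apply]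
        exact (hcomm h v).symm
      rw [Representation.character, Representation.character, h3, LinearMap.trace_conj']
    · exact congrArg (fun f : Representation.IntertwiningMap ρ ρ' => f.toLinearMap) h0
  have h2 := congrArg (LinearMap.toMatrix B B') hQ
  rw [map_sum, map_zero] at h2
  have h4 : ∀ g, LinearMap.toMatrix B B' (ρ' g ∘ₗ t ∘ₗ ρ g⁻¹) =
      (S' g).map (algebraMap O ℂ) * θ.map (algebraMap O ℂ) * (S g⁻¹).map (algebraMap O ℂ) := by
    intro g
    rw [LinearMap.toMatrix_comp B B' B', LinearMap.toMatrix_comp B B B', hS, hS', ht,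
      LinearMap.toMatrix_toLin, Matrix.mul_assoc]
  rw [Finset.sum_congr rfl fun g _ => h4 g] at h2
  have h3 : (∑ g, S' g * θ * S g⁻¹).map (algebraMap O ℂ) =
      ∑ g, (S' g).map (algebraMap O ℂ) * θ.map (algebraMap O ℂ) * (S g⁻¹).map (algebraMap O ℂ) := by
    ext i j
    simp only [Matrix.map_apply, Matrix.sum_apply, map_sum]
    refine Finset.sum_congr rfl fun g _ => ?_
    rw [← Matrix.map_mul, ← Matrix.map_mul, Matrix.map_apply]
  change (∑ g, S' g * θ * S g⁻¹).map (algebraMap O ℂ) = _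
  rw [h3, h2]
  ext i j
  simp

/-- `S` is a matrix form of a representation with character `χ` -/
def Rz (χ : G → ℂ) (n : ℕ) (S : G →* Matrix (Fin n) (Fin n) O) : Prop :=
  ∃ (V : Type) (_ : AddCommGroup V) (_ : Module ℂ V) (_ : FiniteDimensional ℂ V)
    (ρ : Representation ℂ G V) (_ : ρ.IsIrreducible) (B : Module.Basis (Fin n) ℂ V),
    ρ.character = χ ∧ ∀ g, LinearMap.toMatrix B B (ρ g) = (S g).map (algebraMap O ℂ)

/-- the reduced representation -/
def rF {n : ℕ} (S : G →* Matrix (Fin n) (Fin n) O) : Representation (RF O) G (Fin n → RF O) where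
  toFun g := Matrix.toLin' ((S g).map (IsLocalRing.residue O))
  map_one' := by
    rw [map_one, Matrix.map_one _ (map_zero _) (map_one _), Matrix.toLin'_one]
    rfl
  map_mul' g h := by
    rw [map_mul, Matrix.map_mul, Matrix.toLin'_mul]
    rfl

omit [Fintype G] in
theorem rF_apply {n : ℕ} (S : G →* Matrix (Fin n) (Fin n) O) (g : G) :
    rF S g = Matrix.toLin' ((S g).map (IsLocalRing.residue O)) := rfl

/-- lifting of an operator -/
theorem lift_op {n n' : ℕ} (S : G →* Matrix (Fin n) (Fin n) O)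
    (S' : G →* Matrix (Fin n') (Fin n') O) (θ : (Fin n → RF O) →ₗ[RF O] (Fin n' → RF O)) :
    ∃ A : Matrix (Fin n') (Fin n) O, A.map (IsLocalRing.residue O) = LinearMap.toMatrix' θ ∧
      ∑ g, rF S' g ∘ₗ θ ∘ₗ rF S g⁻¹ =
        Matrix.toLin' ((∑ g, S' g * A * S g⁻¹).map (IsLocalRing.residue O)) := by
  obtain ⟨A, hA⟩ : ∃ A : Matrix (Fin n') (Fin n) O,
      A.map (IsLocalRing.residue O) = LinearMap.toMatrix' θ := by
    choose f hf using IsLocalRing.residue_surjective (R := O)
    refine ⟨(LinearMap.toMatrix' θ).map f, ?_⟩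
    ext i j
    rw [Matrix.map_apply, Matrix.map_apply, hf]
  refine ⟨A, hA, ?_⟩
  have h1 : (∑ g, S' g * A * S g⁻¹).map (IsLocalRing.residue O) =
      ∑ g, (S' g).map (IsLocalRing.residue O) * LinearMap.toMatrix' θ *
        (S g⁻¹).map (IsLocalRing.residue O) := by
    ext i j
    rw [← hA]
    simp only [Matrix.map_apply, Matrix.sum_apply, map_sum]
    refine Finset.sum_congr rfl fun g _ => ?_
    rw [← Matrix.map_mul, ← Matrix.map_mul, Matrix.map_apply]
  rw [h1, map_sum]
  refine Finset.sum_congr rfl fun g _ => ?_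
  rw [Matrix.toLin'_mul, Matrix.toLin'_mul, Matrix.toLin'_toMatrix', rF_apply, rF_apply]
  rfl

end

theorem t_M2 : M2 := by
  intro p _ O hpO G _ _
  letI := Fintype.ofFinite G
  haveI := Pool.Agent.H254R3.IN.charP_RF hpO
  -- matrix forms
  have hex : ∀ i : Dz p G, ∃ (n : ℕ) (S : G →* Matrix (Fin n) (Fin n) O), Rz i.1 n S := by
    rintro ⟨χ, hχ, -⟩
    obtain ⟨V, h1, h2, h3, ρ, hr, rfl⟩ := hχ
    obtain ⟨n, B, S, hS⟩ := lat O ρ hr
    exact ⟨n, S, V, h1, h2, h3, ρ, hr, B, rfl, hS⟩
  choose n S hS using hex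
  have hn : ∀ i, n i = ndeg i.1 ∧ 0 < n i := by
    intro i
    obtain ⟨V, _, _, _, ρ, hr, B, hχ, -⟩ := hS i
    have h1 : Module.finrank ℂ V = n i := by
      rw [Module.finrank_eq_card_basis B, Fintype.card_fin]
    have h2 : (n i : ℂ) = (i.1 : G → ℂ) 1 := by
      rw [← hχ, Representation.char_one, h1]
    have h3 := ndeg_eq h2
    exact ⟨h3.symm, h3 ▸ ndeg_pos i.2.1⟩
  -- the operators
  have hTr : ∀ i, ∃ c : RF O, c ≠ 0 ∧ ∀ θ, Tr (rF (S i)) θ = (c * LinearMap.trace (RF O) _ θ) •
      (1 : Module.End (RF O) (Fin (n i) → RF O)) := by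
    intro i
    set N : ℕ := Nat.card G / n i with hN
    have hNp : ¬ p ∣ N := by
      rw [hN, (hn i).1]
      exact i.2.2
    have hdvd : n i ∣ Nat.card G := by
      refine Pool.Agent.Y63.AWC.deg_dvd (chi := i.1) i.2.1 ?_
      rw [(hn i).1, ndeg_cast i.2.1]
    have hNn : (N : ℂ) * n i = Fintype.card G := by
      rw [← Nat.card_eq_fintype_card, hN, ← Nat.cast_mul, Nat.div_mul_cancel hdvd]
    refine ⟨(N : RF O), (CharP.cast_eq_zero_iff (RF O) p N).not.mpr hNp, fun θ => ?_⟩
    obtain ⟨A, hA, h1⟩ := lift_op (S i) (S i) θ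
    obtain ⟨V, _, _, _, ρ, hr, B, hχ, hB⟩ := hS i
    have h2 := avg_mat ρ hr B (S i) hB N hNn A
    rw [h2] at h1
    have h3 : Tr (rF (S i)) θ = ∑ g, rF (S i) g ∘ₗ θ ∘ₗ rF (S i) g⁻¹ := rfl
    rw [h3, h1]
    have h4 : LinearMap.trace (RF O) _ θ = IsLocalRing.residue O A.trace := by
      rw [LinearMap.trace_eq_matrix_trace (RF O) (Pi.basisFun (RF O) (Fin (n i))),
        LinearMap.toMatrix_eq_toMatrix', ← hA]
      simp [Matrix.trace, map_sum]
    have h5 : (((N : O) * A.trace) • (1 : Matrix (Fin (n i)) (Fin (n i)) O)).map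
        (IsLocalRing.residue O) = ((N : RF O) * LinearMap.trace (RF O) _ θ) •
          (1 : Matrix (Fin (n i)) (Fin (n i)) (RF O)) := by
      ext a b
      rw [Matrix.map_apply, Matrix.smul_apply, Matrix.smul_apply, smul_eq_mul, smul_eq_mul,
        map_mul, map_mul, map_natCast, h4, Matrix.one_apply, Matrix.one_apply]
      split_ifs <;> simp
    rw [h5, map_smul, Matrix.toLin'_one]
    rfl
  have hcross : ∀ i j, i ≠ j → ∀ θ : (Fin (n i) → RF O) →ₗ[RF O] (Fin (n j) → RF O),
      ∑ g, rF (S j) g ∘ₗ θ ∘ₗ rF (S i) g⁻¹ = 0 := by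
    intro i j hij θ
    obtain ⟨A, hA, h1⟩ := lift_op (S i) (S j) θ
    rw [h1]
    obtain ⟨V, _, _, _, ρ, hr, B, hχ, hB⟩ := hS i
    obtain ⟨V', _, _, _, ρ', hr', B', hχ', hB'⟩ := hS j
    rw [orth_mat ρ hr ρ' hr' (by rw [hχ, hχ']; exact fun h => hij (Subtype.ext h)) B B' (S i) (S j)
      hB hB' A]
    refine LinearMap.ext fun x => ?_
    simp [Matrix.map_zero]
  have hone : ∀ i, ∃ θ, Tr (rF (S i)) θ = 1 := by
    intro i
    obtain ⟨c, hc, h⟩ := hTr i
    refine ⟨c⁻¹ • ((LinearMap.proj (R := RF O) (φ := fun _ : Fin (n i) => RF O)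
      ⟨0, (hn i).2⟩).smulRight (Pi.single ⟨0, (hn i).2⟩ 1)), ?_⟩
    rw [h, map_smul, LinearMap.trace_smulRight, smul_eq_mul, LinearMap.proj_apply,
      Pi.single_eq_same, mul_one, mul_inv_cancel₀ hc, one_smul]
  refine ⟨n, fun i => rF (S i), fun i => ?_, fun i j hij => ?_, hone⟩
  · obtain ⟨c, hc, h⟩ := hTr i
    haveI : Nontrivial (Subrepresentation (rF (S i))) := by
      refine ⟨⟨⊥, ⊤, fun h0 => ?_⟩⟩
      have h1 : (Pi.single ⟨0, (hn i).2⟩ 1 : Fin (n i) → RF O) ∈
          (⊤ : Subrepresentation (rF (S i))).toSubmodule := trivial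
      rw [← h0] at h1
      have h2 : (Pi.single ⟨0, (hn i).2⟩ 1 : Fin (n i) → RF O) = 0 := h1
      have h3 := congrFun h2 ⟨0, (hn i).2⟩
      rw [Pi.single_eq_same] at h3
      exact one_ne_zero h3
    refine ⟨fun W => ?_⟩
    by_cases hW : ∃ u ∈ W.toSubmodule, u ≠ 0
    · right
      obtain ⟨u, hu, hu0⟩ := hW
      obtain ⟨k, hk⟩ : ∃ k, u k ≠ 0 := by
        by_contra hcon
        push Not at hcon
        exact hu0 (funext hcon)
      have htop : W.toSubmodule = ⊤ := by
        rw [Submodule.eq_top_iff']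
        intro x
        have h1 := h (((u k)⁻¹ • (LinearMap.proj (R := RF O) (φ := fun _ : Fin (n i) => RF O)
          k)).smulRight u)
        rw [LinearMap.trace_smulRight, LinearMap.smul_apply, LinearMap.proj_apply, smul_eq_mul,
          inv_mul_cancel₀ hk, mul_one] at h1
        have h2 := congrArg (fun f => f x) h1
        have h3 : c • x ∈ W.toSubmodule := by
          change _ = c • x at h2
          rw [← h2]
          change (∑ g, rF (S i) g ∘ₗ _ ∘ₗ rF (S i) g⁻¹) x ∈ _
          rw [LinearMap.sum_apply]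
          refine Submodule.sum_mem _ fun g _ => ?_
          rw [LinearMap.comp_apply, LinearMap.comp_apply]
          refine W.apply_mem_toSubmodule g ?_
          rw [LinearMap.smulRight_apply]
          exact Submodule.smul_mem _ _ hu
        have h4 := Submodule.smul_mem _ c⁻¹ h3
        rwa [smul_smul, inv_mul_cancel₀ hc, one_smul] at h4
      exact Subrepresentation.toSubmodule_injective htop
    · left
      push Not at hW
      refine Subrepresentation.toSubmodule_injective ?_
      change W.toSubmodule = ⊥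
      exact (Submodule.eq_bot_iff _).mpr hW
  · rintro ⟨e, he⟩
    obtain ⟨θ, hθ⟩ := hone i
    have h1 := hcross i j hij (e.toLinearMap ∘ₗ θ)
    have h2 : ∑ g, rF (S j) g ∘ₗ (e.toLinearMap ∘ₗ θ) ∘ₗ rF (S i) g⁻¹ =
        e.toLinearMap ∘ₗ Tr (rF (S i)) θ := by
      have h3 : Tr (rF (S i)) θ = ∑ g, rF (S i) g ∘ₗ θ ∘ₗ rF (S i) g⁻¹ := rfl
      rw [h3]
      refine LinearMap.ext fun x => ?_
      simp only [LinearMap.sum_apply, LinearMap.comp_apply, map_sum]
      refine Finset.sum_congr rfl fun g _ => ?_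
      exact (he g _).symm
    rw [h2, hθ] at h1
    have h3 := congrArg (fun f => f (Pi.single ⟨0, (hn i).2⟩ 1)) h1
    have h4 : e (Pi.single ⟨0, (hn i).2⟩ 1) = 0 := h3
    rw [LinearEquiv.map_eq_zero_iff] at h4
    have h5 := congrFun h4 ⟨0, (hn i).2⟩
    rw [Pi.single_eq_same] at h5
    exact one_ne_zero h5

end Pool.Agent.K3h85.IN
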