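import Pool.Agent.H254R3.IN.Chars
import Pool.Agent.K3h83.IN.Stm

/-!
# An invariant irreducible character of a normal subgroup extends to a central extension
-/

set_option autoImplicit false
set_option linter.style.haveILetI false

open scoped BigOperators Classical
open Representation

noncomputable section

namespace Pool.Agent.K3h85.IN

open Pool.Agent.H254R3.IN

/-- two irreducible representations with the same character: a unit that intertwines them -/
theorem exists_unit {L : Type} [Group L] [Finite L] {V : Type} [AddCommGroup V] [Module ℂ V]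
    [FiniteDimensional ℂ V] (σ τ : Representation ℂ L V) (hσ : σ.IsIrreducible)
    (hτ : τ.IsIrreducible) (h : σ.character = τ.character) :
    ∃ S : (V →ₗ[ℂ] V)ˣ, ∀ l, (S : V →ₗ[ℂ] V) * σ l = τ l * (S : V →ₗ[ℂ] V) := by
  haveI := Fintype.ofFinite L
  haveI : Invertible (Nat.card L : ℂ) := invertibleOfNonzero (by
    exact_mod_cast Nat.card_pos.ne')
  have h1 := char_orthonormal τ σ
  have h2 := char_orthonormal σ σ
  rw [if_pos ⟨Representation.Equiv.refl σ⟩] at h2
  rw [← h, h2] at h1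
  have h3 : Nonempty (σ.Equiv τ) := by
    by_contra hn
    rw [if_neg hn] at h1
    exact one_ne_zero h1
  obtain ⟨φ⟩ := h3
  refine ⟨LinearMap.GeneralLinearGroup.ofLinearEquiv φ.toLinearEquiv, fun l => ?_⟩
  exact φ.isIntertwining' l

/-- the conjugation of `G` on the normal subgroup `j(L)`, as an automorphism of `L` -/
theorem exists_conj {L G : Type} [Group L] [Group G] (j : L →* G) (hj : Function.Injective j)
    (hn : j.range.Normal) (g : G) : ∃ α : L →* L, (∀ l, j (α l) = g * j l * g⁻¹) ∧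
      Function.Surjective α := by
  have h1 : ∀ l, ∃ l', j l' = g * j l * g⁻¹ := fun l =>
    MonoidHom.mem_range.mp (hn.conj_mem _ (MonoidHom.mem_range.mpr ⟨l, rfl⟩) g)
  choose a ha using h1
  refine ⟨MonoidHom.mk' a fun x y => hj ?_, ha, fun l => ?_⟩
  · rw [ha, map_mul, map_mul, ha, ha]
    group
  · obtain ⟨l', hl'⟩ := MonoidHom.mem_range.mp
      (hn.conj_mem _ (MonoidHom.mem_range.mpr ⟨l, rfl⟩) g⁻¹)
    refine ⟨l', hj ?_⟩
    change j (a l') = j l
    rw [ha, hl']
    group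

/-- restriction along a surjection keeps irreducibility -/
theorem irr_comp_surj {L L' : Type} [Group L] [Group L'] {V : Type} [AddCommGroup V] [Module ℂ V]
    (σ : Representation ℂ L V) (hσ : σ.IsIrreducible) (α : L' →* L) (hα : Function.Surjective α) :
    IsIrreducible (MonoidHom.comp σ α : Representation ℂ L' V) := by
  let f : Subrepresentation (MonoidHom.comp σ α : Representation ℂ L' V) ≃o
      Subrepresentation σ :=
    { toFun := fun W => ⟨W.toSubmodule, fun g v hv => by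
        obtain ⟨g', rfl⟩ := hα g
        exact W.apply_mem_toSubmodule g' hv⟩
      invFun := fun W => ⟨W.toSubmodule, fun g v hv => W.apply_mem_toSubmodule (α g) hv⟩
      left_inv := fun W => rfl
      right_inv := fun W => rfl
      map_rel_iff' := Iff.rfl }
  exact (OrderIso.isSimpleOrder_iff f).mpr hσ


section Main

variable {L G : Type} [Group L] [Group G] {V : Type} [AddCommGroup V] [Module ℂ V]

/-- the pairs of an element of `G` and a compatible operator, normalised by its determinant -/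
def grp (j : L →* G) (hj : Function.Injective j) (hn : j.range.Normal) (σ : Representation ℂ L V) :
    Subgroup (G × (V →ₗ[ℂ] V)ˣ) where
  carrier := {x | (∀ l l', x.1 * j l * x.1⁻¹ = j l' →
      (x.2 : V →ₗ[ℂ] V) * σ l = σ l' * (x.2 : V →ₗ[ℂ] V)) ∧
    LinearMap.det (x.2 : V →ₗ[ℂ] V) ^ Nat.card L = 1}
  one_mem' := by
    refine ⟨fun l l' h => ?_, by simp⟩
    simp only [Prod.fst_one, one_mul, inv_one, mul_one] at h
    rw [hj h]
    simp
  mul_mem' := by
    rintro x y ⟨hx, hx'⟩ ⟨hy, hy'⟩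
    refine ⟨fun l l' h => ?_, ?_⟩
    · obtain ⟨m, hm⟩ := MonoidHom.mem_range.mp
        (hn.conj_mem _ (MonoidHom.mem_range.mpr ⟨l, rfl⟩) y.1)
      have h1 := hy l m hm.symm
      have h2 := hx m l' (by
        rw [← h, hm, Prod.fst_mul]
        group)
      rw [Prod.snd_mul, Units.val_mul, mul_assoc, h1, ← mul_assoc, h2, mul_assoc]
    · rw [Prod.snd_mul, Units.val_mul, map_mul, mul_pow, hx', hy', one_mul]
  inv_mem' := by
    rintro x ⟨hx, hx'⟩
    refine ⟨fun l l' h => ?_, ?_⟩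
    · have h1 := hx l' l (by
        rw [← h, Prod.fst_inv]
        group)
      rw [Prod.snd_inv]
      have h2 : ((x.2⁻¹ : (V →ₗ[ℂ] V)ˣ) : V →ₗ[ℂ] V) * ((x.2 : V →ₗ[ℂ] V) * σ l') *
          ((x.2⁻¹ : (V →ₗ[ℂ] V)ˣ) : V →ₗ[ℂ] V) = ((x.2⁻¹ : (V →ₗ[ℂ] V)ˣ) : V →ₗ[ℂ] V) *
          (σ l * (x.2 : V →ₗ[ℂ] V)) * ((x.2⁻¹ : (V →ₗ[ℂ] V)ˣ) : V →ₗ[ℂ] V) := by rw [h1]
      rw [← mul_assoc, Units.inv_mul, one_mul, mul_assoc, mul_assoc, Units.mul_inv, mul_one] at h2
      exact h2.symm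
    · rw [Prod.snd_inv]
      have h2 : LinearMap.det ((x.2⁻¹ : (V →ₗ[ℂ] V)ˣ) : V →ₗ[ℂ] V) ^ Nat.card L *
          LinearMap.det (x.2 : V →ₗ[ℂ] V) ^ Nat.card L = 1 := by
        rw [← mul_pow, ← map_mul, Units.inv_mul, map_one, one_pow]
      rw [hx', mul_one] at h2
      exact h2

variable [Finite L] [Finite G] [FiniteDimensional ℂ V]

theorem main (j : L →* G) (hj : Function.Injective j) (hn : j.range.Normal)
    (σ : Representation ℂ L V) (hσ : σ.IsIrreducible)
    (hinv : ∀ (x : G) (l l' : L), x * j l * x⁻¹ = j l' → σ.character l' = σ.character l) :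
    ∃ (E : Type) (_ : Group E) (_ : Finite E) (π : E →* G) (s : L →* E)
    (ρ : Representation ℂ E V) (lam : π.ker →* ℂˣ),
    Function.Surjective π ∧ (∀ l, π (s l) = j l) ∧ s.range.Normal ∧
    π.ker ≤ Subgroup.center E ∧ IsCyclic π.ker ∧ (∀ l, ρ.character (s l) = σ.character l) ∧
    ∀ (a : π.ker) (v : V), ρ a v = (((lam a)⁻¹ : ℂˣ) : ℂ) • v := by
  haveI : Nontrivial V := irr_nontrivial σ hσ
  have hdim : 0 < Module.finrank ℂ V := Module.finrank_pos
  set E := grp j hj hn σ with hE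
  have memE : ∀ x : G × (V →ₗ[ℂ] V)ˣ, x ∈ E ↔ (∀ l l', x.1 * j l * x.1⁻¹ = j l' →
      (x.2 : V →ₗ[ℂ] V) * σ l = σ l' * (x.2 : V →ₗ[ℂ] V)) ∧
      LinearMap.det (x.2 : V →ₗ[ℂ] V) ^ Nat.card L = 1 := fun x => Iff.rfl
  let π : E →* G := (MonoidHom.fst G (V →ₗ[ℂ] V)ˣ).comp E.subtype
  let ρ : Representation ℂ E V := (Units.coeHom (V →ₗ[ℂ] V)).comp
    ((MonoidHom.snd G (V →ₗ[ℂ] V)ˣ).comp E.subtype)
  have hρ : ∀ x : E, ρ x = (x.1.2 : V →ₗ[ℂ] V) := fun x => rfl
  have hπ : ∀ x : E, π x = x.1.1 := fun x => rfl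
  have hσU : ∀ l, ((MonoidHom.toHomUnits σ l : (V →ₗ[ℂ] V)ˣ) : V →ₗ[ℂ] V) = σ l := fun l => rfl
  have hsmem : ∀ l, (j l, MonoidHom.toHomUnits σ l) ∈ E := by
    intro l
    rw [memE]
    refine ⟨fun m m' h => ?_, ?_⟩
    · have h1 : m' = l * m * l⁻¹ := hj (by rw [← h]; simp)
      rw [hσU, ← map_mul, h1, ← map_mul]
      congr 1
      group
    · rw [hσU, ← map_pow, ← map_pow, pow_card_eq_one', map_one, map_one]
  let s : L →* E := ((j.prod (MonoidHom.toHomUnits σ)).codRestrict E hsmem)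
  have hs1 : ∀ l, (s l).1.1 = j l := fun l => rfl
  have hs2 : ∀ l, ((s l).1.2 : V →ₗ[ℂ] V) = σ l := fun l => rfl
  have hsurj : Function.Surjective π := by
    intro g
    obtain ⟨α, hα, hα'⟩ := exists_conj j hj hn g
    obtain ⟨S, hS⟩ := exists_unit σ (MonoidHom.comp σ α) hσ (irr_comp_surj σ hσ α hα') (by
      funext l
      exact (hinv g l (α l) (hα l).symm).symm)
    have hd : LinearMap.det (S : V →ₗ[ℂ] V) ≠ 0 := by
      have := (LinearMap.isUnit_det _ S.isUnit).ne_zero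
      exact this
    obtain ⟨c, hc⟩ := IsAlgClosed.exists_pow_nat_eq (LinearMap.det (S : V →ₗ[ℂ] V))⁻¹ hdim
    have hc0 : c ≠ 0 := by
      rintro rfl
      rw [zero_pow hdim.ne'] at hc
      exact inv_ne_zero hd hc.symm
    refine ⟨⟨(g, Units.mk0 c hc0 • S), ?_⟩, rfl⟩
    rw [memE]
    have e1 : ((Units.mk0 c hc0 • S : (V →ₗ[ℂ] V)ˣ) : V →ₗ[ℂ] V) = c • (S : V →ₗ[ℂ] V) := rfl
    refine ⟨fun l l' h => ?_, ?_⟩
    · have h1 : l' = α l := hj (by rw [hα, ← h])
      rw [e1, smul_mul_assoc, hS, h1, mul_smul_comm]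
      rfl
    · rw [e1, LinearMap.det_smul, hc, inv_mul_cancel₀ hd, one_pow]
  have hscal : ∀ a : π.ker, ∃ c : ℂ, ρ a = c • LinearMap.id := by
    intro a
    refine schur σ hσ _ fun l v => ?_
    have h1 : (a.1.1.1 : G) = 1 := MonoidHom.mem_ker.mp a.2
    have h2 := ((memE _).mp a.1.2).1 l l (by rw [h1]; simp)
    exact congrArg (fun f => f v) h2
  choose c hc using hscal
  have hcinj : ∀ {x y : ℂ}, x • (LinearMap.id : V →ₗ[ℂ] V) = y • LinearMap.id → x = y :=
    fun h => scalar_inj h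
  let cc : π.ker →* ℂ :=
    { toFun := c
      map_one' := hcinj (by rw [← hc, one_smul]; simp; rfl)
      map_mul' := fun a b => hcinj (by
        rw [← hc, Subgroup.coe_mul, map_mul, hc, hc]
        ext v
        simp [smul_smul, mul_comm]) }
  let lam : π.ker →* ℂˣ := (MonoidHom.toHomUnits cc)⁻¹
  have hlam : ∀ a, (((lam a)⁻¹ : ℂˣ) : ℂ) = c a := by
    intro a
    change ((((MonoidHom.toHomUnits cc a)⁻¹)⁻¹ : ℂˣ) : ℂ) = c a
    rw [inv_inv]
    rfl
  have hccinj : Function.Injective cc := by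
    rw [injective_iff_map_eq_one]
    intro a ha
    have h1 : (a.1.1.1 : G) = 1 := MonoidHom.mem_ker.mp a.2
    have h2 : ρ a = c a • LinearMap.id := hc a
    have h3 : c a = 1 := ha
    rw [h3, one_smul, hρ] at h2
    apply Subtype.ext
    apply Subtype.ext
    refine Prod.ext h1 ?_
    apply Units.ext
    exact h2
  have hroot : ∀ a, (MonoidHom.toHomUnits cc a) ∈
      rootsOfUnity (Module.finrank ℂ V * Nat.card L) ℂ := by
    intro a
    rw [mem_rootsOfUnity']
    have h1 := ((memE _).mp a.1.2).2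
    have h2 : (a.1.1.2 : V →ₗ[ℂ] V) = c a • LinearMap.id := hc a
    rw [h2, LinearMap.det_smul, LinearMap.det_id, mul_one, ← pow_mul] at h1
    exact h1
  haveI : NeZero (Module.finrank ℂ V * Nat.card L) := ⟨(Nat.mul_pos hdim Nat.card_pos).ne'⟩
  haveI hfk : Finite π.ker := by
    refine Finite.of_injective (fun a => (⟨MonoidHom.toHomUnits cc a, hroot a⟩ :
      rootsOfUnity (Module.finrank ℂ V * Nat.card L) ℂ)) fun a b hab => ?_
    apply hccinj
    have := congrArg (fun z => ((z : ℂˣ) : ℂ)) (Subtype.ext_iff.mp hab)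
    exact this
  haveI hfE : Finite E := by
    haveI : Finite (E ⧸ π.ker) := Finite.of_injective _
      (QuotientGroup.quotientKerEquivRange π).injective
    exact Finite.of_subgroup_quotient π.ker
  refine ⟨E, inferInstance, hfE, π, s, ρ, lam, hsurj, fun l => rfl, ⟨?_⟩, ?_, ?_, ?_, ?_⟩
  · rintro _ ⟨l, rfl⟩ x
    obtain ⟨l', hl'⟩ := MonoidHom.mem_range.mp
      (hn.conj_mem _ (MonoidHom.mem_range.mpr ⟨l, rfl⟩) x.1.1)
    refine ⟨l', ?_⟩
    rw [eq_mul_inv_iff_mul_eq]
    apply Subtype.ext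
    refine Prod.ext ?_ ?_
    · change j l' * x.1.1 = x.1.1 * j l
      rw [hl']
      group
    · apply Units.ext
      exact (((memE _).mp x.2).1 l l' hl'.symm).symm
  · intro a ha
    rw [Subgroup.mem_center_iff]
    intro x
    have h1 : (a.1.1 : G) = 1 := MonoidHom.mem_ker.mp ha
    have h2 : (a.1.2 : V →ₗ[ℂ] V) = c ⟨a, ha⟩ • LinearMap.id := hc ⟨a, ha⟩
    apply Subtype.ext
    refine Prod.ext ?_ ?_
    · change x.1.1 * a.1.1 = a.1.1 * x.1.1
      rw [h1, mul_one, one_mul]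
    · apply Units.ext
      change (x.1.2 : V →ₗ[ℂ] V) * (a.1.2 : V →ₗ[ℂ] V) = (a.1.2 : V →ₗ[ℂ] V) * x.1.2
      rw [h2]
      ext v
      simp
  · exact isCyclic_of_injective_ringHom cc hccinj
  · intro l
    rfl
  · intro a v
    rw [hlam, hc]
    simp

end Main

/-- an invariant character of a normal subgroup extends to a central extension -/
theorem t_S3a : Pool.Agent.K3h83.IN.S3a := by
  intro L G _ _ _ _ j hj hn θ hθ hinv
  obtain ⟨V, i1, i2, i3, σ, hσ, rfl⟩ := hθ
  obtain ⟨E, j1, j2, π, s, ρ, lam, h1, h2, h3, h4, h5, h6, h7⟩ :=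
    main j hj hn σ hσ fun x l l' h => hinv x l l' h
  exact ⟨E, j1, j2, π, s, V, i1, i2, i3, ρ, lam, h1, h2, h3, h4, h5, h6, h7⟩

end Pool.Agent.K3h85.IN
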