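import Pool.Agent.H977R3.CM.Aut
import Pool.Agent.K3h83.IN.Stm

/-!
# Characters over a linear character and over its powers
-/

set_option autoImplicit false
set_option linter.style.haveILetI false

open scoped BigOperators Classical

noncomputable section

namespace Pool.Agent.K3h85.IN

open Pool.Agent.Helper884 Pool.Agent.K3h3.KB Pool.Agent.K3h3.MK Pool.Agent.K3h83.IN
open Pool.Agent.H254R3.IN (IsIrr mem_Irr)
open IC (Irr)

/-- an automorphism of `ℂ` that raises all `m`-th roots of unity to the `n`-th power -/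
theorem exists_pow_aut (m n : ℕ) (hm : 0 < m) (hn : Nat.Coprime n m) :
    ∃ σ : ℂ ≃+* ℂ, ∀ z : ℂ, z ^ m = 1 → σ z = z ^ n := by
  haveI : NeZero m := ⟨hm.ne'⟩
  haveI : NeZero ((m : ℕ) : ℚ) := ⟨by exact_mod_cast hm.ne'⟩
  haveI : IsCyclotomicExtension {m} ℚ (CyclotomicField m ℚ) :=
    CyclotomicField.isCyclotomicExtension m ℚ
  let j : CyclotomicField m ℚ →ₐ[ℚ] ℂ := IsAlgClosed.lift
  have hz : IsPrimitiveRoot (IsCyclotomicExtension.zeta m ℚ (CyclotomicField m ℚ)) m :=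
    IsCyclotomicExtension.zeta_spec m ℚ (CyclotomicField m ℚ)
  have hμ : IsPrimitiveRoot ((IsCyclotomicExtension.zeta m ℚ (CyclotomicField m ℚ)) ^ n) m :=
    hz.pow_of_coprime n hn
  have hirr : Irreducible (Polynomial.cyclotomic m ℚ) := Polynomial.cyclotomic.irreducible_rat hm
  let g := IsCyclotomicExtension.fromZetaAut hμ hirr
  have hg : g (IsCyclotomicExtension.zeta m ℚ (CyclotomicField m ℚ)) = (IsCyclotomicExtension.zeta m ℚ (CyclotomicField m ℚ)) ^ n :=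
    IsCyclotomicExtension.fromZetaAut_spec hμ hirr
  obtain ⟨σ, hσ⟩ := Pool.Agent.H977R3.CM.exists_aut (j : CyclotomicField m ℚ →+* ℂ)
    (g : CyclotomicField m ℚ ≃+* CyclotomicField m ℚ)
  refine ⟨σ, fun z hz1 => ?_⟩
  have hjz : IsPrimitiveRoot (j (IsCyclotomicExtension.zeta m ℚ (CyclotomicField m ℚ))) m :=
    hz.map_of_injective j.injective
  obtain ⟨i, -, rfl⟩ := hjz.eq_pow_of_pow_eq_one hz1
  have h1 : σ (j (IsCyclotomicExtension.zeta m ℚ (CyclotomicField m ℚ))) =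
      j (IsCyclotomicExtension.zeta m ℚ (CyclotomicField m ℚ)) ^ n := by
    have := hσ (IsCyclotomicExtension.zeta m ℚ (CyclotomicField m ℚ))
    refine this.trans ?_
    change j (g _) = _
    rw [hg, map_pow]
  rw [map_pow, h1, ← pow_mul, ← pow_mul, mul_comm]

theorem ndeg_gal {G : Type} [Group G] {χ : G → ℂ} (h : IsIrr χ) (σ : ℂ ≃+* ℂ) :
    ndeg (fun g => σ (χ g)) = ndeg χ := by
  refine ndeg_eq ?_
  rw [← ndeg_cast h, map_natCast]

theorem ov_gal {L G : Type} [Group L] [Finite L] [Group G] (j : L →* G) (θ : L → ℂ)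
    (χ : G → ℂ) (σ : ℂ ≃+* ℂ) (h : ov j θ χ) :
    ov j (fun l => σ (θ l)) (fun g => σ (χ g)) := by
  haveI := Fintype.ofFinite L
  rw [ov_iff] at h ⊢
  have h1 : IC.B (fun l => σ (χ (j l))) (fun l => σ (θ l)) =
      σ (IC.B (fun l => χ (j l)) θ) := by
    unfold IC.B
    simp only [map_mul, map_inv₀, map_natCast, map_sum]
  change IC.B (fun l => σ (χ (j l))) (fun l => σ (θ l)) ≠ 0
  rw [h1]
  exact fun h2 => h ((map_eq_zero σ).mp h2)

/-- conjugation with a field automorphism -/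
theorem t_S4b : Pool.Agent.K3h83.IN.S4b := by
  intro R _ w A G _ _ _ _ j nu m n hm hnu hn
  haveI := Fintype.ofFinite G
  obtain ⟨σ, hσ⟩ := exists_pow_aut m n hm hn
  have e1 : (fun a => (((nu ^ n) a : ℂˣ) : ℂ)) = fun a => σ ((nu a : ℂˣ) : ℂ) := by
    funext a
    rw [hσ]
    · simp
    · have := congrArg (fun f => ((f a : ℂˣ) : ℂ)) hnu
      simpa using this
  have e2 : (fun a => ((nu a : ℂˣ) : ℂ)) = fun a => σ.symm (((nu ^ n) a : ℂˣ) : ℂ) := by
    funext a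
    rw [congrFun e1 a, RingEquiv.symm_apply_apply]
  rw [wo_eq, wo_eq]
  refine Finset.sum_bij' (fun χ _ => fun g => σ.symm (χ g)) (fun χ _ => fun g => σ (χ g))
    ?_ ?_ ?_ ?_ ?_
  · intro χ hχ
    rw [Finset.mem_filter] at hχ ⊢
    refine ⟨mem_Irr.mpr (Pool.Agent.Q90.WR.irr_gal σ.symm (mem_Irr.mp hχ.1)), ?_⟩
    rw [e2]
    exact ov_gal j _ χ σ.symm hχ.2
  · intro χ hχ
    rw [Finset.mem_filter] at hχ ⊢
    refine ⟨mem_Irr.mpr (Pool.Agent.Q90.WR.irr_gal σ (mem_Irr.mp hχ.1)), ?_⟩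
    rw [e1]
    exact ov_gal j _ χ σ hχ.2
  · intro χ _
    funext g
    simp
  · intro χ _
    funext g
    simp
  · intro χ hχ
    rw [ndeg_gal (mem_Irr.mp (Finset.mem_filter.mp hχ).1)]

end Pool.Agent.K3h85.IN
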