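import Pool.Agent.K3h83.IN.Stm

/-!
# Character triples: reduction to a central extension (assembly)
-/

set_option autoImplicit false
set_option linter.style.haveILetI false

open scoped BigOperators Classical

noncomputable section

namespace Pool.Agent.K3h85.IN

open Pool.Agent.Helper884 Pool.Agent.K3h3.KB Pool.Agent.K3h3.MK Pool.Agent.K3h83.IN
open Pool.Agent.H254R3.IN (IsIrr mem_Irr)
open IC (Irr)

theorem t_S3 (ha : Pool.Agent.K3h83.IN.S3a) (hb : Pool.Agent.K3h83.IN.S3b) :
    Pool.Agent.K3h83.IN.S3 := by
  intro L G Q _ _ _ _ _ j hj θ hθ hinv r hr hrk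
  have hn : j.range.Normal := by
    rw [← hrk]
    infer_instance
  obtain ⟨E, iE1, iE2, π, s, V, iV1, iV2, iV3, ρ, lam0, hπ, hs, hsn, hcen, hcyc, hchar, hlam⟩ :=
    ha L G j hj hn θ hθ hinv
  haveI := hsn
  let t : E →* E ⧸ s.range := QuotientGroup.mk' s.range
  have ht : Function.Surjective t := QuotientGroup.mk'_surjective _
  have htk : t.ker = s.range := QuotientGroup.ker_mk' _
  have hrj : ∀ l, r (j l) = 1 := fun l => by
    have h1 : j l ∈ r.ker := by
      rw [hrk]
      exact ⟨l, rfl⟩
    exact h1
  let q : E ⧸ s.range →* Q := QuotientGroup.lift s.range (r.comp π) (by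
    rintro _ ⟨l, rfl⟩
    change r (π (s l)) = 1
    rw [hs, hrj])
  have hq : ∀ e, q (t e) = r (π e) := fun e => rfl
  have hqs : Function.Surjective q := by
    intro y
    obtain ⟨g, rfl⟩ := hr y
    obtain ⟨e, rfl⟩ := hπ g
    exact ⟨t e, hq e⟩
  have hker : ∀ y : E ⧸ s.range, q y = 1 → ∃ a : π.ker, t a = y := by
    intro y hy
    obtain ⟨e, rfl⟩ := ht y
    rw [hq] at hy
    have h1 : π e ∈ j.range := by
      rw [← hrk]
      exact hy
    obtain ⟨l, hl⟩ := h1
    refine ⟨⟨e * (s l)⁻¹, ?_⟩, ?_⟩
    · rw [MonoidHom.mem_ker, map_mul, map_inv, hs, hl, mul_inv_cancel]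
    · have h2 : t (s l) = 1 := by
        have : s l ∈ t.ker := by
          rw [htk]
          exact ⟨l, rfl⟩
        exact this
      change t (e * (s l)⁻¹) = t e
      rw [map_mul, map_inv, h2, inv_one, mul_one]
  have hinj : ∀ a : π.ker, t a = 1 → a = 1 := by
    intro a h1
    have h2 : (a : E) ∈ s.range := by
      rw [← htk]
      exact h1
    obtain ⟨l, hl⟩ := h2
    have h3 : π a = 1 := a.2
    rw [← hl, hs] at h3
    have h4 : l = 1 := hj (by rw [h3, map_one])
    apply Subtype.ext
    rw [← hl, h4, map_one]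
    rfl
  let f0 : π.ker →* q.ker := (t.comp π.ker.subtype).codRestrict q.ker (by
    intro a
    change q (t a) = 1
    rw [hq, (MonoidHom.mem_ker).mp a.2, map_one])
  have hf0 : Function.Bijective f0 := by
    constructor
    · rw [injective_iff_map_eq_one]
      intro a h1
      exact hinj a (congrArg Subtype.val h1)
    · intro y
      obtain ⟨a, h1⟩ := hker y y.2
      exact ⟨a, Subtype.ext h1⟩
  let f : π.ker ≃* q.ker := MulEquiv.ofBijective f0 hf0
  have hf : ∀ a, ((f a : q.ker) : E ⧸ s.range) = t a := fun a => rfl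
  refine ⟨E ⧸ s.range, inferInstance, inferInstance, q, lam0.comp f.symm.toMonoidHom, hqs, ?_, ?_, ?_⟩
  · intro y hy
    obtain ⟨a, rfl⟩ := hker y hy
    rw [Subgroup.mem_center_iff]
    intro z
    obtain ⟨e, rfl⟩ := ht z
    rw [← map_mul, ← map_mul, (Subgroup.mem_center_iff.mp (hcen a.2)) e]
  · haveI := hcyc
    exact isCyclic_of_surjective f.toMonoidHom f.surjective
  · intro R _ w X jX hjX
    -- the groups over `X`
    have hsX : ∀ l, s l ∈ X.comap π := fun l => by
      rw [Subgroup.mem_comap, hs, ← hjX]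
      exact (jX l).2
    let πX : X.comap π →* X := π.subgroupComap X
    have hπX : ∀ e, ((πX e : X) : G) = π e := fun e => rfl
    let sX : L →* X.comap π := s.codRestrict (X.comap π) hsX
    have hsX' : ∀ l, ((sX l : X.comap π) : E) = s l := fun l => rfl
    have htX0 : ∀ e : X.comap π, t e ∈ (X.map r).comap q := fun e => by
      rw [Subgroup.mem_comap, hq]
      exact ⟨π e, e.2, rfl⟩
    let tX : X.comap π →* (X.map r).comap q :=
      (t.comp (X.comap π).subtype).codRestrict ((X.map r).comap q) htX0
    have htX : ∀ e, ((tX e : (X.map r).comap q) : E ⧸ s.range) = t e := fun e => rfl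
    have hj1 : ∀ l, j l ∈ X := fun l => by
      rw [← hjX]
      exact (jX l).2
    have hπXs : Function.Surjective πX := by
      rintro ⟨x, hx⟩
      obtain ⟨e, rfl⟩ := hπ x
      exact ⟨⟨e, hx⟩, rfl⟩
    have hπXc : πX.ker ≤ Subgroup.center (X.comap π) := by
      intro a h1
      have h2 : (a : E) ∈ π.ker := by
        rw [MonoidHom.mem_ker, ← hπX, (MonoidHom.mem_ker).mp h1]
        rfl
      rw [Subgroup.mem_center_iff]
      intro e
      apply Subtype.ext
      exact (Subgroup.mem_center_iff.mp (hcen h2)) e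
    have hcomp : πX.comp sX = jX := by
      ext l
      change π (s l) = (jX l : G)
      rw [hs, hjX]
    have hinjX : Function.Injective fun l => πX (sX l) := by
      intro l l' h1
      apply hj
      have h2 : π (s l) = π (s l') := congrArg Subtype.val h1
      rwa [hs, hs] at h2
    have htXs : Function.Surjective tX := by
      rintro ⟨y, hy⟩
      obtain ⟨e, rfl⟩ := ht y
      obtain ⟨x, hx, h1⟩ := hy
      rw [hq] at h1
      have h2 : x⁻¹ * π e ∈ j.range := by
        rw [← hrk, MonoidHom.mem_ker, map_mul, map_inv, h1, inv_mul_cancel]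
      obtain ⟨l, hl⟩ := h2
      have h3 : π e ∈ X := by
        have : π e = x * j l := by
          rw [hl, mul_inv_cancel_left]
        rw [this]
        exact X.mul_mem hx (hj1 l)
      exact ⟨⟨e, h3⟩, rfl⟩
    have htXk : tX.ker = sX.range := by
      ext e
      constructor
      · intro h1
        have h2 : (e : E) ∈ t.ker := congrArg Subtype.val ((MonoidHom.mem_ker).mp h1)
        rw [htk] at h2
        obtain ⟨l, hl⟩ := h2
        exact ⟨l, Subtype.ext hl⟩
      · rintro ⟨l, rfl⟩
        rw [MonoidHom.mem_ker]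
        apply Subtype.ext
        change t (s l) = 1
        have : s l ∈ t.ker := by
          rw [htk]
          exact ⟨l, rfl⟩
        exact this
    let ρX : Representation ℂ (X.comap π) V := ρ.comp (X.comap π).subtype
    have hk : ∀ a : πX.ker, ((a : X.comap π) : E) ∈ π.ker := fun a => by
      rw [MonoidHom.mem_ker, ← hπX, (MonoidHom.mem_ker).mp a.2]
      rfl
    let κ : πX.ker →* π.ker :=
      ((X.comap π).subtype.comp πX.ker.subtype).codRestrict π.ker hk
    have hκb : Function.Bijective κ := by
      constructor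
      · intro a b h1
        have h2 : ((κ a : π.ker) : E) = κ b := by rw [h1]
        apply Subtype.ext
        apply Subtype.ext
        exact h2
      · rintro ⟨a, h1⟩
        have h2 : a ∈ X.comap π := by
          rw [Subgroup.mem_comap, (MonoidHom.mem_ker).mp h1]
          exact X.one_mem
        refine ⟨⟨⟨a, h2⟩, ?_⟩, rfl⟩
        rw [MonoidHom.mem_ker]
        apply Subtype.ext
        exact h1
    have key := hb R w L (X.comap π) X ((X.map r).comap q) πX hπXs hπXc sX hinjX tX htXs htXk V ρX
      θ hθ (fun l => hchar l) (lam0.comp κ) (fun a v => hlam (κ a) v)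
    rw [hcomp] at key
    rw [key]
    congr 1
    refine wo_congr w ((MulEquiv.ofBijective κ hκb).trans f)
      (MulEquiv.refl ((X.map r).comap q : Subgroup (E ⧸ s.range))) _ _ (fun a => ?_) _ _ fun a => ?_
    · apply Subtype.ext
      rfl
    · change ((lam0 (κ a) : ℂˣ) : ℂ) = ((lam0 (f.symm (f (κ a))) : ℂˣ) : ℂ)
      rw [f.symm_apply_apply]

end Pool.Agent.K3h85.IN
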