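import Pool.Agent.K3h83.IN.Stm5

/-!
# The number of irreducible representations in characteristic `p` is at most the number of `p`-regular
classes
-/

set_option autoImplicit false
set_option linter.style.haveILetI false

open scoped BigOperators Classical

namespace Pool.Agent.K3h85.IN

open Pool.Agent.K3h83.IN

/-- density for several pairwise non-isomorphic simple modules -/
theorem density {F R : Type} [Field F] [IsAlgClosed F] [Ring R] [Algebra F R] {ι : Type} [Finite ι]
    (V : ι → Type) [∀ i, AddCommGroup (V i)] [∀ i, Module F (V i)] [∀ i, Module R (V i)]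
    [∀ i, IsScalarTower F R (V i)] [∀ i, Module.Finite F (V i)] [∀ i, IsSimpleModule R (V i)]
    (hV : ∀ i j, i ≠ j → ∀ f : V i →ₗ[R] V j, f = 0) (i : ι) (P : V i →ₗ[F] V i) :
    ∃ r : R, (∀ x : V i, r • x = P x) ∧ ∀ j, j ≠ i → ∀ x : V j, r • x = 0 := by
  haveI := Fintype.ofFinite ι
  -- the endomorphisms of the sum are diagonal
  have hφ : ∀ φ : Module.End R (∀ i, V i), ∃ c : ι → F, ∀ y j, φ y j = c j • y j := by
    intro φ
    have h1 : ∀ j, ∃ c : F, ∀ x : V j, φ (Pi.single j x) j = c • x := by
      intro j
      obtain ⟨c, hc⟩ := (IsSimpleModule.algebraMap_end_bijective_of_isAlgClosed (A := R)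
        (V := V j) F).2 ((LinearMap.proj j) ∘ₗ φ ∘ₗ (LinearMap.single R V j))
      refine ⟨c, fun x => ?_⟩
      have h2 := congrArg (fun f => f x) hc
      exact h2.symm
    have h2 : ∀ j k, j ≠ k → ∀ x : V j, φ (Pi.single j x) k = 0 := by
      intro j k hjk x
      have h3 := hV j k hjk ((LinearMap.proj k) ∘ₗ φ ∘ₗ (LinearMap.single R V j))
      exact congrArg (fun f => f x) h3
    choose c hc using h1
    refine ⟨c, fun y j => ?_⟩
    have h3 : φ y = ∑ k, φ (Pi.single k (y k)) := by
      rw [← map_sum]
      congr 1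
      exact (Finset.univ_sum_single y).symm
    rw [h3, Finset.sum_apply, Finset.sum_eq_single j]
    · exact hc j (y j)
    · intro k _ hk
      exact h2 k j hk (y k)
    · intro h
      exact absurd (Finset.mem_univ j) h
  -- the operator
  let T : Module.End (Module.End R (∀ i, V i)) (∀ i, V i) :=
    { toFun := fun y => Pi.single i (P (y i))
      map_add' := by
        intro x y
        rw [Pi.add_apply, map_add, Pi.single_add]
      map_smul' := by
        intro φ y
        obtain ⟨c, hc⟩ := hφ φ
        rw [RingHom.id_apply, Module.End.smul_def, Module.End.smul_def]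
        funext j
        rw [hc, hc]
        by_cases hj : j = i
        · subst hj
          rw [Pi.single_eq_same, Pi.single_eq_same, map_smul]
        · rw [Pi.single_eq_of_ne hj, Pi.single_eq_of_ne hj, smul_zero] }
  choose s hs using fun j => (Module.Finite.fg_top (R := F) (M := V j))
  obtain ⟨r, hr⟩ := jacobson_density T
    (Finset.univ.biUnion fun j => (s j).image fun x => (Pi.single j x : ∀ i, V i))
  have hrs : ∀ j, ∀ x : V j, Pi.single (M := V) i (P ((Pi.single j x : ∀ i, V i) i)) =
      r • (Pi.single j x : ∀ i, V i) := by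
    intro j x
    have hx : x ∈ Submodule.span F (s j : Set (V j)) := by
      rw [hs j]
      trivial
    induction hx using Submodule.span_induction with
    | mem x hx =>
      exact hr _ (Finset.mem_biUnion.mpr ⟨j, Finset.mem_univ j, Finset.mem_image_of_mem _ hx⟩)
    | zero => simp
    | add x y _ _ hx hy =>
      rw [Pi.single_add, smul_add, ← hx, ← hy, Pi.add_apply, map_add, Pi.single_add]
    | smul c x _ hx =>
      rw [Pi.single_smul, smul_comm, ← hx, Pi.smul_apply, map_smul, Pi.single_smul]
  refine ⟨r, fun x => ?_, fun j hj x => ?_⟩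
  · have h := congrFun (hrs i x) i
    rw [Pi.single_eq_same, Pi.single_eq_same, Pi.smul_apply, Pi.single_eq_same] at h
    exact h.symm
  · have h := congrFun (hrs j x) j
    rw [Pi.single_eq_of_ne hj, Pi.smul_apply, Pi.single_eq_same] at h
    exact h.symm

/-- traces of `p`-parts -/
theorem trace_reg {p : ℕ} [Fact p.Prime] {F G : Type} [Field F] [CharP F p] [Group G] [Finite G]
    (g : G) : ∃ g' : G, ¬ p ∣ orderOf g' ∧ ∀ (m : ℕ) (ρ : Representation F G (Fin m → F)),
      LinearMap.trace F _ (ρ g) = LinearMap.trace F _ (ρ g') := by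
  have hp := (Fact.out : p.Prime)
  have hn : orderOf g ≠ 0 := (orderOf_pos g).ne'
  obtain ⟨k, l, hl, hkl⟩ := Nat.exists_eq_pow_mul_and_not_dvd hn p hp.ne_one
  have hcop : Nat.Coprime (p ^ k) l := (hp.coprime_iff_not_dvd.mpr hl).pow_left k
  obtain ⟨a, ha1, ha2⟩ := Nat.chineseRemainder hcop 0 1
  obtain ⟨b, hb1, hb2⟩ := Nat.chineseRemainder hcop 1 0
  have hab : g ^ (a + b) = g := by
    have h1 : a + b ≡ 1 [MOD orderOf g] := by
      rw [hkl]
      refine (Nat.modEq_and_modEq_iff_modEq_mul hcop).mp ⟨?_, ?_⟩
      · simpa using ha1.add hb1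
      · simpa using ha2.add hb2
    have h2 := (pow_eq_pow_iff_modEq (x := g) (m := 1)).mpr h1
    rw [h2, pow_one]
  refine ⟨g ^ a, ?_, fun m ρ => ?_⟩
  · have h1 : (g ^ a) ^ l = 1 := by
      rw [← pow_mul]
      apply orderOf_dvd_iff_pow_eq_one.mp
      rw [hkl]
      exact Nat.mul_dvd_mul ((Nat.modEq_zero_iff_dvd).mp ha1) dvd_rfl
    intro h2
    exact hl (h2.trans (orderOf_dvd_of_pow_eq_one h1))
  · have h3 : (g ^ b) ^ (p ^ k) = 1 := by
      rw [← pow_mul]
      apply orderOf_dvd_iff_pow_eq_one.mp
      rw [hkl, mul_comm b]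
      exact Nat.mul_dvd_mul dvd_rfl ((Nat.modEq_zero_iff_dvd).mp hb2)
    have h4 : IsNilpotent (ρ (g ^ b) - 1) := by
      rcases subsingleton_or_nontrivial (Module.End F (Fin m → F)) with h | h
      · exact ⟨1, Subsingleton.elim _ _⟩
      · refine ⟨p ^ k, ?_⟩
        haveI : CharP (Module.End F (Fin m → F)) p :=
          charP_of_injective_algebraMap (algebraMap F (Module.End F (Fin m → F))).injective p
        rw [sub_pow_char_pow_of_commute _ _ (Commute.one_right _), ← map_pow, h3, map_one, one_pow,
          sub_self]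
    have hcomm : Commute (ρ (g ^ a)) (ρ (g ^ b)) := by
      rw [Commute, SemiconjBy, ← map_mul, ← map_mul, ← pow_add, ← pow_add, add_comm]
    have h5 : IsNilpotent (ρ (g ^ a) * (ρ (g ^ b) - 1)) := by
      refine Commute.isNilpotent_mul_left ?_ h4
      exact hcomm.sub_right (Commute.one_right _)
    have h6 := (LinearMap.isNilpotent_trace_of_isNilpotent h5).eq_zero
    have h7 : ρ g = ρ (g ^ a) + ρ (g ^ a) * (ρ (g ^ b) - 1) := by
      rw [mul_sub, mul_one, add_sub_cancel, ← map_mul, ← pow_add, hab]
    rw [h7, map_add, h6, add_zero]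

/-- isomorphic representations from homomorphisms of simple modules -/
theorem hom_zero {F G : Type} [Field F] [Group G] {m m' : ℕ} (ρ : Representation F G (Fin m → F))
    (ρ' : Representation F G (Fin m' → F)) [ρ.IsIrreducible] [ρ'.IsIrreducible]
    (h : NonIso ρ ρ') (f : ρ.asModule →ₗ[MonoidAlgebra F G] ρ'.asModule) : f = 0 := by
  rcases LinearMap.bijective_or_eq_zero f with hb | hb
  · exfalso
    apply h
    let e : ρ.asModule ≃ₗ[MonoidAlgebra F G] ρ'.asModule := LinearEquiv.ofBijective f hb
    refine ⟨(ρ.asModuleEquiv.symm.trans (e.restrictScalars F)).trans ρ'.asModuleEquiv,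
      fun g v => ?_⟩
    change ρ'.asModuleEquiv (f (ρ.asModuleEquiv.symm (ρ g v))) =
      ρ' g (ρ'.asModuleEquiv (f (ρ.asModuleEquiv.symm v)))
    rw [Representation.asModuleEquiv_symm_map_rho, map_smul,
      Representation.asModuleEquiv_map_smul, MonoidAlgebra.of_apply,
      Representation.asAlgebraHom_single, one_smul]
  · exact hb

theorem t_M1 : M1 := by
  intro p _ F _ _ _ G _ _ ι _ n ρ hirr hiso
  haveI := Fintype.ofFinite ι
  haveI : ∀ i, (ρ i).IsIrreducible := hirr
  -- elements of the group algebra
  have hr : ∀ i, ∃ r : MonoidAlgebra F G, LinearMap.trace F _ ((ρ i).asAlgebraHom r) = 1 ∧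
      ∀ j, j ≠ i → (ρ j).asAlgebraHom r = 0 := by
    intro i
    have hn : 0 < n i := by
      haveI : Nontrivial (ρ i).asModule := IsSimpleModule.nontrivial (MonoidAlgebra F G) _
      by_contra hn
      have h0 : n i = 0 := by omega
      have h1 : Subsingleton (Fin (n i) → F) := by
        rw [h0]
        infer_instance
      exact not_subsingleton (ρ i).asModule h1
    -- the rank one operator
    let P : (Fin (n i) → F) →ₗ[F] (Fin (n i) → F) :=
      (LinearMap.single F (fun _ => F) (⟨0, hn⟩ : Fin (n i))) ∘ₗ (LinearMap.proj ⟨0, hn⟩)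
    have hP : LinearMap.trace F _ P = 1 := by
      have h1 : (LinearMap.proj (R := F) (φ := fun _ : Fin (n i) => F) ⟨0, hn⟩) ∘ₗ
          (LinearMap.single F (fun _ => F) (⟨0, hn⟩ : Fin (n i))) = LinearMap.id := by
        refine LinearMap.ext fun x => ?_
        simp
      rw [LinearMap.trace_comp_comm', h1, LinearMap.trace_id, Module.finrank_self, Nat.cast_one]
    obtain ⟨r, hr1, hr2⟩ := density (F := F) (R := MonoidAlgebra F G)
      (fun i => (ρ i).asModule) (fun i j hij f => hom_zero _ _ (hiso i j hij) f) i
      ((ρ i).asModuleEquiv.symm.toLinearMap ∘ₗ P ∘ₗ (ρ i).asModuleEquiv.toLinearMap)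
    refine ⟨r, ?_, fun j hj => ?_⟩
    · have h1 : (ρ i).asAlgebraHom r = P := by
        refine LinearMap.ext fun x => ?_
        have h2 := hr1 ((ρ i).asModuleEquiv.symm x)
        have h3 := congrArg (ρ i).asModuleEquiv h2
        rw [Representation.asModuleEquiv_map_smul] at h3
        simpa using h3
      rw [h1, hP]
    · refine LinearMap.ext fun x => ?_
      have h2 := hr2 j hj ((ρ j).asModuleEquiv.symm x)
      have h3 := congrArg (ρ j).asModuleEquiv h2
      rw [Representation.asModuleEquiv_map_smul] at h3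
      simpa using h3
  -- the characters on the regular classes
  let Cr := {c : ConjClasses G // ∃ g, ConjClasses.mk g = c ∧ ¬ p ∣ orderOf g}
  haveI : Finite Cr := inferInstance
  haveI := Fintype.ofFinite Cr
  let t : ι → Cr → F := fun i c => LinearMap.trace F _ (ρ i c.2.choose)
  have hconj : ∀ (i : ι) (g h : G), IsConj g h →
      LinearMap.trace F _ (ρ i g) = LinearMap.trace F _ (ρ i h) := by
    intro i g h hgh
    obtain ⟨c, hc⟩ := isConj_iff.mp hgh
    rw [← hc, (ρ i).map_mul (c * g) c⁻¹, LinearMap.trace_mul_comm, ← (ρ i).map_mul,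
      inv_mul_cancel_left]
  have hli : LinearIndependent F t := by
    rw [Fintype.linearIndependent_iff]
    intro c hc i
    have h1 : ∀ g : G, ∑ j, c j * LinearMap.trace F _ (ρ j g) = 0 := by
      intro g
      obtain ⟨g', hg', htr⟩ := trace_reg (p := p) (F := F) g
      let cc : Cr := ⟨ConjClasses.mk g', g', rfl, hg'⟩
      have h5 := congrFun hc cc
      rw [Finset.sum_apply, Pi.zero_apply] at h5
      rw [← h5]
      refine Finset.sum_congr rfl fun j _ => ?_
      rw [Pi.smul_apply, smul_eq_mul, htr]
      congr 1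
      apply hconj
      exact (ConjClasses.mk_eq_mk_iff_isConj.mp cc.2.choose_spec.1).symm
    obtain ⟨r, hr1, hr2⟩ := hr i
    have h2 : ∀ r : MonoidAlgebra F G,
        ∑ j, c j * LinearMap.trace F _ ((ρ j).asAlgebraHom r) = 0 := by
      intro r
      induction r using MonoidAlgebra.induction_linear with
      | zero => simp
      | add x y hx hy =>
        simp only [map_add, mul_add, Finset.sum_add_distrib, hx, hy, add_zero]
      | single g a =>
        simp only [Representation.asAlgebraHom_single, map_smul, smul_eq_mul]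
        have h6 := h1 g
        calc ∑ j, c j * (a * LinearMap.trace F _ (ρ j g)) =
            a * ∑ j, c j * LinearMap.trace F _ (ρ j g) := by
              rw [Finset.mul_sum]
              exact Finset.sum_congr rfl fun j _ => by ring
          _ = 0 := by rw [h6, mul_zero]
    have h3 := h2 r
    rw [Finset.sum_eq_single i, hr1, mul_one] at h3
    · exact h3
    · intro j _ hj
      rw [hr2 j hj, map_zero, mul_zero]
    · intro h
      exact absurd (Finset.mem_univ i) h
  have h4 := hli.fintype_card_le_finrank
  rw [Module.finrank_fintype_fun_eq_card] at h4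
  rw [Nat.card_eq_fintype_card, Nat.card_eq_fintype_card]
  exact h4

end Pool.Agent.K3h85.IN
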