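import Pool.Agent.K3h83.IN.Stm5
import Pool.Agent.Y63.AWC.Deg
import Pool.Agent.K3h51.IN.S2a
import Pool.Agent.K3h96.IN.S1
import Pool.Agent.K3h85.IN.Triple
import Pool.Agent.K3h85.IN.CExt
import Pool.Agent.K3h18.IN.Infl
import Pool.Agent.K3h83.IN.Rel

/-!
# The number of classes of `A / P`
-/

set_option autoImplicit false
set_option linter.style.haveILetI false

open scoped BigOperators Classical

noncomputable section

namespace Pool.Agent.K3h85.IN

open Pool.Agent.Helper884 Pool.Agent.K3h3.KB Pool.Agent.K3h3.MK Pool.Agent.K3h83.IN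
open Pool.Agent.H254R3.IN (IsIrr mem_Irr)
open IC (Irr)

/-- the number of irreducible characters is the number of classes -/
theorem card_cc (G : Type) [Group G] [Fintype G] : Nat.card (ConjClasses G) = (Irr G).card := by
  have := Fintype.ofFinite (ConjClasses G)
  let L : ({χ : G → ℂ // χ ∈ Irr G} → ℂ) →ₗ[ℂ] (ConjClasses G → ℂ) :=
    { toFun := fun c C => ∑ χ : {χ : G → ℂ // χ ∈ Irr G}, c χ * χ.1 C.out
      map_add' := by
        intro c c'
        funext C
        rw [Pi.add_apply, ← Finset.sum_add_distrib]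
        exact Finset.sum_congr rfl fun χ _ => by rw [Pi.add_apply, add_mul]
      map_smul' := by
        intro a c
        funext C
        rw [Pi.smul_apply, RingHom.id_apply, smul_eq_mul, Finset.mul_sum]
        exact Finset.sum_congr rfl fun χ _ => by rw [Pi.smul_apply, smul_eq_mul, mul_assoc] }
  have hL : Function.Surjective L := by
    intro f
    have hcl : IC.IsClass (fun g : G => f (ConjClasses.mk g)) := by
      intro g y
      beta_reduce
      congr 1
      exact ConjClasses.mk_eq_mk_iff_isConj.2 (isConj_iff.2 ⟨y⁻¹, by group⟩)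
    have h1 := IC.expand _ hcl
    refine ⟨fun χ => IC.B (fun g : G => f (ConjClasses.mk g)) χ.1, ?_⟩
    funext C
    have h2 := congrFun h1 C.out
    rw [Finset.sum_apply] at h2
    have h3 : ConjClasses.mk C.out = C := Quotient.out_eq C
    rw [h3] at h2
    rw [h2]
    show ∑ χ : {χ : G → ℂ // χ ∈ Irr G}, _ = _
    rw [← Finset.sum_coe_sort (Irr G)]
    rfl
  have hL' : Function.Injective L := by
    rw [← LinearMap.ker_eq_bot, LinearMap.ker_eq_bot']
    intro c hc
    have h1 : ∑ χ : {χ : G → ℂ // χ ∈ Irr G}, c χ • χ.1 = 0 := by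
      funext g
      have h2 := congrFun hc (ConjClasses.mk g)
      rw [Finset.sum_apply]
      refine Eq.trans (Finset.sum_congr rfl fun χ _ => ?_) h2
      rw [Pi.smul_apply, smul_eq_mul]
      congr 1
      have h3 : IsConj (ConjClasses.mk g).out g :=
        ConjClasses.mk_eq_mk_iff_isConj.mp (Quotient.out_eq _)
      exact ((mem_Irr.mp χ.2).isConj h3).symm
    funext χ
    have h2 := congrArg (fun F => IC.B F χ.1) h1
    rw [IC.B_sum_left] at h2
    simp only [IC.B_smul_left] at h2
    rw [Finset.sum_eq_single χ] at h2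
    · rw [IC.B_irr (mem_Irr.mp χ.2) (mem_Irr.mp χ.2), if_pos rfl, mul_one] at h2
      rw [h2]
      simp [IC.B]
    · intro ψ _ hψ
      rw [IC.B_irr (mem_Irr.mp ψ.2) (mem_Irr.mp χ.2), if_neg (fun h => hψ (Subtype.ext h)), mul_zero]
    · intro h
      exact absurd (Finset.mem_univ _) h
  have h1 := (LinearEquiv.ofBijective L ⟨hL', hL⟩).finrank_eq
  rw [Module.finrank_fintype_fun_eq_card, Module.finrank_fintype_fun_eq_card,
    Fintype.card_coe, ← Nat.card_eq_fintype_card] at h1
  exact h1.symm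

/-- the characters of an abelian group over a linear character of a subgroup -/
theorem card_over_comm {Z S : Type} [Group Z] [Fintype Z] [CommGroup S] [Fintype S] (i : Z →* S)
    (hi : Function.Injective i) (lam : Z → ℂ) (hlam : IsIrr lam) (h1 : lam 1 = 1) :
    ((Irr S).filter (ov i lam)).card * Nat.card Z = Nat.card S := by
  -- the sum of all characters
  have hsum : ∀ s : S, ∑ χ ∈ Irr S, χ s = if s = 1 then (Nat.card S : ℂ) else 0 := by
    intro s
    have hcl : IC.IsClass (fun g : S => if g = 1 then (1 : ℂ) else 0) := by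
      intro g y
      have h : y * g * y⁻¹ = g := by
        rw [mul_comm y g, mul_assoc, mul_inv_cancel, mul_one]
      simp only [h]
    have h2 := congrFun (IC.expand _ hcl) s
    rw [Finset.sum_apply] at h2
    have h3 : ∀ χ ∈ Irr S, (IC.B (fun g : S => if g = 1 then (1 : ℂ) else 0) χ • χ) s =
        (Nat.card S : ℂ)⁻¹ * χ s := by
      intro χ hχ
      rw [Pi.smul_apply, smul_eq_mul]
      congr 1
      unfold IC.B
      have h4 : ∀ g : S, (if g = 1 then (1 : ℂ) else 0) * χ g⁻¹ = if g = 1 then χ 1 else 0 := by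
        intro g
        split_ifs with h
        · rw [h, inv_one, one_mul]
        · rw [zero_mul]
      rw [Finset.sum_congr rfl fun g _ => h4 g, Finset.sum_ite_eq' Finset.univ (1 : S),
        if_pos (Finset.mem_univ _)]
      have h5 : χ 1 = 1 := by
        rw [← ndeg_cast (mem_Irr.mp hχ), ndeg_comm (mem_Irr.mp hχ), Nat.cast_one]
      rw [h5, mul_one]
    rw [Finset.sum_congr rfl h3, ← Finset.mul_sum] at h2
    have hS : (Nat.card S : ℂ) ≠ 0 := by
      exact_mod_cast Nat.card_pos.ne'
    rw [eq_inv_mul_iff_mul_eq₀ hS] at h2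
    rw [← h2]
    split_ifs <;> simp
  have hov : ∀ χ ∈ Irr S, IC.B (fun z : Z => χ (i z)) lam = if ov i lam χ then 1 else 0 := by
    intro χ hχ
    obtain ⟨l, hl⟩ := lin_of_comm (mem_Irr.mp hχ)
    have h2 : IsIrr (fun z : Z => χ (i z)) := by
      rw [hl]
      exact lin_irr (l.comp i)
    rw [ov_iff, IC.B_irr h2 hlam]
    split_ifs with h3 h4 h4
    · rfl
    · exact absurd one_ne_zero h4
    · exact absurd rfl h4
    · rfl
  have h2 : ∑ χ ∈ Irr S, IC.B (fun z : Z => χ (i z)) lam =
      (((Irr S).filter (ov i lam)).card : ℂ) := by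
    rw [Finset.sum_congr rfl hov, Finset.sum_ite, Finset.sum_const_zero, add_zero,
      Finset.sum_const, nsmul_eq_mul, mul_one]
  have h3 : ∑ χ ∈ Irr S, IC.B (fun z : Z => χ (i z)) lam =
      (Nat.card Z : ℂ)⁻¹ * (Nat.card S : ℂ) := by
    unfold IC.B
    rw [← Finset.mul_sum, Finset.sum_comm]
    congr 1
    have h4 : ∀ z : Z, ∑ χ ∈ Irr S, χ (i z) * lam z⁻¹ = if z = 1 then (Nat.card S : ℂ) else 0 := by
      intro z
      rw [← Finset.sum_mul, hsum]
      by_cases hz : z = 1
      · rw [if_pos hz, hz, map_one, if_pos rfl, inv_one, h1, mul_one]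
      · rw [if_neg hz, if_neg (fun h => hz (hi (by rw [h, map_one]))), zero_mul]
    rw [Finset.sum_congr rfl fun z _ => h4 z, Finset.sum_ite_eq' Finset.univ (1 : Z),
      if_pos (Finset.mem_univ _)]
  have hZ : (Nat.card Z : ℂ) ≠ 0 := by
    exact_mod_cast Nat.card_pos.ne'
  rw [h2] at h3
  have h5 : (((Irr S).filter (ov i lam)).card : ℂ) * (Nat.card Z : ℂ) = (Nat.card S : ℂ) := by
    rw [h3]
    field_simp
  exact_mod_cast h5

theorem card_over' {Z S : Type} [Group Z] [Fintype Z] [Group S] [Fintype S]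
    (hc : ∀ a b : S, a * b = b * a) (i : Z →* S)
    (hi : Function.Injective i) (lam : Z → ℂ) (hlam : IsIrr lam) (h1 : lam 1 = 1) :
    ((Irr S).filter (ov i lam)).card * Nat.card Z = Nat.card S := by
  letI : CommGroup S := { (inferInstance : Group S) with mul_comm := hc }
  exact card_over_comm i hi lam hlam h1

theorem card_ker_mul {G Q : Type} [Group G] [Finite G] [Group Q] (r : G →* Q)
    (hr : Function.Surjective r) : Nat.card r.ker * Nat.card Q = Nat.card G := by
  rw [← Subgroup.card_mul_index r.ker, Subgroup.index_ker, MonoidHom.range_eq_top.mpr hr,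
    Subgroup.card_top]

/-- the number of characters over `θ`, if the quotient is cyclic -/
theorem count_over (h1 : S1) (h3 : S3) {L G M : Type} [Group L] [Finite L] [Group G] [Fintype G]
    [Group M] [IsCyclic M] (j : L →* G) (hj : Function.Injective j) (hn : j.range.Normal)
    (c : G →* M) (hc : c.ker = j.range) (θ : L → ℂ) (hθ : IsIrr θ) :
    ((Irr G).filter (ov j θ)).card * Nat.card L = Nat.card {x : G // fixes j θ x} := by
  set T : Subgroup G := Tst j hj hn θ with hT
  have hTm : ∀ x, x ∈ T ↔ fixes j θ x := fun x => Iff.rfl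
  have hjT : ∀ l, j l ∈ T := by
    intro l l' l'' h
    have h4 : l * l' * l⁻¹ = l'' := by
      apply hj
      rw [map_mul, map_mul, map_inv, h]
    rw [← h4]
    exact hθ.conj l' l
  let jT : L →* T := j.codRestrict T hjT
  have e1 := h1 ℤ 1 L G j hj hn θ hθ T hTm jT (fun l => rfl)
  -- the cyclic quotient
  let r : T →* (c.comp T.subtype).range := (c.comp T.subtype).rangeRestrict
  have hr : Function.Surjective r := MonoidHom.rangeRestrict_surjective _
  have hrk : r.ker = jT.range := by
    ext t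
    rw [MonoidHom.ker_rangeRestrict, MonoidHom.mem_ker, MonoidHom.comp_apply, MonoidHom.mem_range]
    change c (t : G) = 1 ↔ _
    rw [← MonoidHom.mem_ker, hc, MonoidHom.mem_range]
    constructor
    · rintro ⟨l, hl⟩
      exact ⟨l, Subtype.ext hl⟩
    · rintro ⟨l, hl⟩
      exact ⟨l, congrArg Subtype.val hl⟩
  have hjTi : Function.Injective jT := fun a b h => hj (congrArg Subtype.val h)
  have hinv : ∀ x : T, fixes jT θ x := by
    intro x l l' h
    exact x.2 l l' (congrArg Subtype.val h)
  obtain ⟨S, iS1, iS2, q, lam, hq, hqc, hqcyc, hw⟩ := h3 L T _ jT hjTi θ hθ hinv r hr hrk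
  let jX : L →* (⊤ : Subgroup T) := jT.codRestrict ⊤ fun _ => trivial
  have e2 := hw ℤ 1 ⊤ jX (fun _ => rfl)
  have e3 : wo (1 : ℕ →* ℤ) jT θ = wo (1 : ℕ →* ℤ) jX θ :=
    wo_congr 1 (MulEquiv.refl L) Subgroup.topEquiv.symm jT jX (fun _ => rfl) θ θ (fun _ => rfl)
  have htop : ((⊤ : Subgroup T).map r).comap q = ⊤ := by
    rw [Subgroup.map_top_of_surjective r hr, Subgroup.comap_top]
  rw [wo_incl_top (1 : ℕ →* ℤ) htop (kle q _) (fun a => ((lam a : ℂˣ) : ℂ))] at e2
  have e4 : wo (1 : ℕ →* ℤ) j θ = wo (1 : ℕ →* ℤ) q.ker.subtype fun a => ((lam a : ℂˣ) : ℂ) := by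
    rw [e1, e3, e2]
    simp
  haveI := Fintype.ofFinite S
  haveI := Fintype.ofFinite q.ker
  rw [wo_eq, wo_eq] at e4
  simp only [MonoidHom.one_apply, Finset.sum_const, nsmul_eq_mul, mul_one] at e4
  have e5 : ((Irr G).filter (ov j θ)).card =
      ((Irr S).filter (ov q.ker.subtype fun a => ((lam a : ℂˣ) : ℂ))).card := by
    exact_mod_cast e4
  have e6 := card_over' (q.isMulCommutative_of_isCyclic_of_ker_le_center hqc).is_comm.comm q.ker.subtype
    (Subgroup.subtype_injective _) (fun a => ((lam a : ℂˣ) : ℂ)) (lin_irr lam) (by simp)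
  have e7 := card_ker_mul q hq
  have e8 := card_ker_mul r hr
  have e9 : Nat.card r.ker = Nat.card L := by
    rw [hrk]
    exact (Nat.card_congr (MonoidHom.ofInjective hjTi).toEquiv).symm
  have e10 : 0 < Nat.card q.ker := Nat.card_pos
  have e11 : ((Irr G).filter (ov j θ)).card = Nat.card (c.comp T.subtype).range := by
    rw [e5]
    apply Nat.eq_of_mul_eq_mul_right e10
    rw [e6, ← e7, mul_comm]
  change _ = Nat.card T
  rw [e11, ← e8, e9, mul_comm]

/-- the orbit formula -/
theorem orbit (h2 : S2a) {L G : Type} [Group L] [Fintype L] [Group G] [Finite G] (j : L →* G)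
    (hj : Function.Injective j) (hn : j.range.Normal) (χ : G → ℂ) (hχ : IsIrr χ) :
    ∑ θ ∈ (Irr L).filter (fun θ => ov j θ χ), Nat.card {x : G // fixes j θ x} = Nat.card G := by
  obtain ⟨q, hq1, hq2⟩ := Nat.exists_infinite_primes (Nat.card G + 1)
  haveI : Fact q.Prime := ⟨hq2⟩
  have hqG : ¬ q ∣ Nat.card G := fun h => by
    have := Nat.le_of_dvd Nat.card_pos h
    omega
  obtain ⟨Q⟩ : Nonempty (Sylow q G) := inferInstance
  haveI := Fintype.ofFinite G
  have hQ : (Q : Subgroup G) = ⊥ := by
    rw [← Subgroup.card_eq_one]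
    obtain ⟨k, hk⟩ := IsPGroup.iff_card.mp Q.isPGroup'
    have h3 : Nat.card (Q : Subgroup G) ∣ Nat.card G := Subgroup.card_subgroup_dvd_card _
    rcases k.eq_zero_or_pos with h0 | h0
    · rw [hk, h0, pow_zero]
    · exact absurd ((dvd_pow_self q h0.ne').trans (hk ▸ h3)) hqG
  have hN : ∀ x : G, x ∈ NN Q := by
    intro x
    unfold NN
    rw [hQ, Subgroup.normalizer_eq_top]
    trivial
  have h0 : (ndeg χ : ZMod q) ≠ 0 := by
    intro h
    rw [ZMod.natCast_eq_zero_iff] at h
    exact hqG (h.trans (Pool.Agent.Y63.AWC.deg_dvd hχ (ndeg_cast hχ).symm))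
  have h5 := h2 q L G j hj hn Q χ hχ h0
  have h6 : Nat.card (NN Q) = Nat.card G := by
    rw [(Subgroup.eq_top_iff' _).mpr hN, Subgroup.card_top]
  rw [← h6, ← h5]
  refine Finset.sum_congr (Finset.ext fun θ => ?_) fun θ _ => ?_
  · simp only [Finset.mem_filter]
    constructor
    · refine fun h => ⟨h.1, fun x hx l l' hl => ?_, h.2⟩
      have hx1 : x = 1 := by
        have h8 : x ∈ (Q : Subgroup G) := hx
        rw [hQ] at h8
        exact Subgroup.mem_bot.mp h8
      rw [hx1, one_mul, inv_one, mul_one] at hl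
      rw [hj hl]
    · exact fun h => ⟨h.1, h.2.2⟩
  · exact Nat.card_congr (Equiv.subtypeEquivRight fun x => ⟨fun h => ⟨hN x, h⟩, fun h => h.2⟩)

theorem t_N8 (h1 : S1) (h2 : S2a) (h3 : S3) : N8 := by
  intro p _ A _ _ P H _ _ hLD
  haveI := hLD.nH
  have hπ : Function.Surjective (QuotientGroup.mk' P) := QuotientGroup.mk'_surjective P
  let j : H →* A ⧸ P := (QuotientGroup.mk' P).comp H.subtype
  have hPH : ∀ x, x ∈ P → x ∈ H → x = 1 := by
    intro x hx hx'
    have e1 : orderOf (⟨x, hx⟩ : P) ∣ Nat.card P := orderOf_dvd_natCard _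
    have e2 : orderOf (⟨x, hx'⟩ : H) ∣ Nat.card H := orderOf_dvd_natCard _
    rw [Subgroup.orderOf_mk] at e1 e2
    rw [hLD.cP] at e1
    rcases (Nat.dvd_prime Fact.out).mp e1 with h | h
    · exact orderOf_eq_one_iff.mp h
    · rw [h] at e2
      exact absurd e2 hLD.cH
  have hj : Function.Injective j := by
    rw [injective_iff_map_eq_one]
    intro x hx
    have e1 : (x : A) ∈ P := (QuotientGroup.eq_one_iff _).mp hx
    exact Subtype.ext (hPH _ e1 x.2)
  have hjr : j.range = H.map (QuotientGroup.mk' P) := by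
    rw [MonoidHom.range_comp, Subgroup.range_subtype]
  have hn : j.range.Normal := by
    rw [hjr]
    exact Subgroup.Normal.map inferInstance _ hπ
  -- the action on `P`
  have hcm : ∀ a : A, (MulAut.conjNormal a : MulAut P) = 1 ↔ a ∈ P ⊔ H := by
    intro a
    rw [← hLD.cen, Subgroup.mem_centralizer_iff]
    constructor
    · intro h y hy
      have e1 := congrArg Subtype.val (DFunLike.congr_fun h (⟨y, hy⟩ : P))
      rw [MulAut.conjNormal_apply] at e1
      change a * y * a⁻¹ = y at e1
      rw [mul_inv_eq_iff_eq_mul] at e1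
      exact e1.symm
    · intro h
      ext y
      rw [MulAut.conjNormal_apply]
      change a * (y : A) * a⁻¹ = y
      rw [← h y y.2, mul_inv_cancel_right]
  have hP1 : ∀ x ∈ P, (MulAut.conjNormal x : MulAut P) = 1 := fun x hx =>
    (hcm x).mpr (Subgroup.mem_sup_left hx)
  let c : A ⧸ P →* MulAut P := QuotientGroup.lift P MulAut.conjNormal hP1
  have hc : c.ker = j.range := by
    ext x
    obtain ⟨a, rfl⟩ := hπ x
    rw [MonoidHom.mem_ker]
    change (MulAut.conjNormal a : MulAut P) = 1 ↔ _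
    rw [hcm, hjr]
    constructor
    · intro h
      obtain ⟨y, hy, z, hz, rfl⟩ := Subgroup.mem_sup_of_normal_right.mp h
      refine ⟨z, hz, ?_⟩
      rw [map_mul, (QuotientGroup.eq_one_iff y).mpr hy |> fun h => (show QuotientGroup.mk' P y = 1 from h),
        one_mul]
    · rintro ⟨z, hz, hza⟩
      have e1 : z⁻¹ * a ∈ P := QuotientGroup.eq.mp hza
      have e2 : a = z * (z⁻¹ * a) := by group
      rw [e2]
      exact Subgroup.mul_mem _ (Subgroup.mem_sup_right hz) (Subgroup.mem_sup_left e1)
  haveI : IsCyclic P := isCyclic_of_prime_card hLD.cP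
  haveI : IsCyclic (MulAut P) := by
    have e := IsCyclic.mulAutMulEquiv P
    rw [hLD.cP] at e
    exact isCyclic_of_surjective e.symm e.symm.surjective
  haveI := Fintype.ofFinite (A ⧸ P)
  have hfix : ∀ (φ : H → ℂ) (a : A), fixes j φ (QuotientGroup.mk' P a) ↔ fixes H.subtype φ a := by
    intro φ a
    constructor
    · intro h l l' e
      apply h l l'
      change QuotientGroup.mk' P a * QuotientGroup.mk' P l * (QuotientGroup.mk' P a)⁻¹ =
        QuotientGroup.mk' P l'
      rw [← map_mul, ← map_inv, ← map_mul]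
      exact congrArg _ e
    · intro h l l' e
      have hl : a * (l : A) * a⁻¹ ∈ H := hLD.nH.conj_mem _ l.2 a
      have e1 : l' = ⟨a * (l : A) * a⁻¹, hl⟩ := by
        apply hj
        rw [← e]
        change _ = QuotientGroup.mk' P (a * (l : A) * a⁻¹)
        rw [map_mul, map_mul, map_inv]
        rfl
      exact h l l' (by rw [e1]; rfl)
  have hcA : Nat.card A = Nat.card (A ⧸ P) * p := by
    rw [Subgroup.card_eq_card_quotient_mul_card_subgroup P, hLD.cP]
  have hstb : ∀ φ : H → ℂ, stb H φ = p * Nat.card {x : A ⧸ P // fixes j φ x} := by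
    intro φ
    have e1 : Nat.card ((Tst j hj hn φ).comap (QuotientGroup.mk' P)) *
        (Tst j hj hn φ).index = Nat.card A := by
      rw [← Subgroup.index_comap_of_surjective _ hπ, Subgroup.card_mul_index]
    have e2 : Nat.card (Tst j hj hn φ) * (Tst j hj hn φ).index = Nat.card (A ⧸ P) :=
      Subgroup.card_mul_index _
    have e3 : stb H φ = Nat.card ((Tst j hj hn φ).comap (QuotientGroup.mk' P)) := by
      unfold stb
      exact Nat.card_congr (Equiv.subtypeEquivRight fun a => (hfix φ a).symm)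
    have e4 : 0 < (Tst j hj hn φ).index := Nat.pos_of_ne_zero Subgroup.FiniteIndex.index_ne_zero
    apply Nat.eq_of_mul_eq_mul_right e4
    rw [e3, e1, hcA, ← e2]
    change Nat.card (Tst j hj hn φ) * _ * p = p * Nat.card (Tst j hj hn φ) * _
    ring
  have key : Nat.card (A ⧸ P) * (Irr (A ⧸ P)).card * Nat.card H =
      ∑ φ ∈ Irr H, Nat.card {x : A ⧸ P // fixes j φ x} ^ 2 := by
    have e1 : Nat.card (A ⧸ P) * (Irr (A ⧸ P)).card =
        ∑ χ ∈ Irr (A ⧸ P), ∑ φ ∈ Irr H, if ov j φ χ then
          Nat.card {x : A ⧸ P // fixes j φ x} else 0 := by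
      rw [mul_comm, ← smul_eq_mul, ← Finset.sum_const]
      refine Finset.sum_congr rfl fun χ hχ => ?_
      rw [← Finset.sum_filter]
      exact (orbit h2 j hj hn χ (mem_Irr.mp hχ)).symm
    rw [e1, Finset.sum_comm, Finset.sum_mul]
    refine Finset.sum_congr rfl fun φ hφ => ?_
    rw [← Finset.sum_filter, Finset.sum_const, smul_eq_mul]
    have e2 := count_over h1 h3 j hj hn c hc φ (mem_Irr.mp hφ)
    rw [mul_right_comm, e2, sq]
  rw [card_cc, hcA, Finset.sum_congr rfl fun φ _ => by rw [hstb φ, mul_pow], ← Finset.mul_sum, ← key]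
  ring

/-- the unconditional form -/
theorem t_N8' : N8 :=
  t_N8 Pool.Agent.K3h96.IN.t_S1 Pool.Agent.K3h51.IN.t_S2a
    (t_S3 t_S3a Pool.Agent.K3h18.IN.t_S3b)

end Pool.Agent.K3h85.IN
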